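import Pool.Agent.Wien.Mod

set_option autoImplicit false
open Set Filter Topology Real Polynomial

namespace Pool.Agent.Wien

theorem irr_lin (c : ℝ) :
    Irreducible ((MvPolynomial.X 0 : MvPolynomial (Fin 2) ℝ) - MvPolynomial.C c) := by
  let e : MvPolynomial (Fin 2) ℝ ≃ₐ[ℝ] MvPolynomial (Fin 2) ℝ :=
    AlgEquiv.ofAlgHom
      (MvPolynomial.aeval ![MvPolynomial.X 0 - MvPolynomial.C c, MvPolynomial.X 1])
      (MvPolynomial.aeval ![MvPolynomial.X 0 + MvPolynomial.C c, MvPolynomial.X 1])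
      (by
        apply MvPolynomial.algHom_ext
        intro i
        fin_cases i <;> simp)
      (by
        apply MvPolynomial.algHom_ext
        intro i
        fin_cases i <;> simp)
  have h1 : e (MvPolynomial.X 0) = MvPolynomial.X 0 - MvPolynomial.C c := by
    change MvPolynomial.aeval ![MvPolynomial.X 0 - MvPolynomial.C c, MvPolynomial.X 1]
      (MvPolynomial.X 0 : MvPolynomial (Fin 2) ℝ) = _
    simp
  rw [← h1, MulEquiv.irreducible_iff e]
  exact (MvPolynomial.X_prime (R := ℝ) (i := (0 : Fin 2))).irreducible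

theorem relprime : IsRelPrime PP QQ := by
  have hP : PP = (1 - (MvPolynomial.X 0)^2)^7 := by
    unfold PP P1
    simp
  rw [hP]
  apply IsRelPrime.pow_left
  have hfac : (1 : MvPolynomial (Fin 2) ℝ) - (MvPolynomial.X 0)^2 =
    (MvPolynomial.X 0 - MvPolynomial.C 1) * (-(MvPolynomial.X 0 - MvPolynomial.C (-1))) := by
    simp only [map_one, map_neg]; ring
  rw [hfac]
  have key : ∀ c : ℝ, c^2 = 1 → IsRelPrime ((MvPolynomial.X 0 : MvPolynomial (Fin 2) ℝ) - MvPolynomial.C c) QQ := by
    intro c _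
    rw [(irr_lin c).isRelPrime_iff_not_dvd]
    rintro ⟨r, hr⟩
    have h1 := congrArg (MvPolynomial.aeval (![(c:ℂ), 0] : Fin 2 → ℂ)) hr
    rw [aeval_QQ, map_mul, map_sub, MvPolynomial.aeval_X, MvPolynomial.aeval_C] at h1
    simp at h1
  apply IsRelPrime.mul_left
  · exact key 1 (by norm_num)
  · rw [IsRelPrime.neg_left_iff]
    exact key (-1) (by norm_num)

/-- power series with prescribed slices -/
noncomputable def SS (c : ℕ → ℝ[X]) : MvPowerSeries (Fin 2) ℝ := fun k => (c (k 1)).coeff (k 0)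

theorem coeff_SS (c : ℕ → ℝ[X]) (k : Fin 2 →₀ ℕ) : MvPowerSeries.coeff k (SS c) = (c (k 1)).coeff (k 0) := rfl

theorem shift (p : ℝ[X]) (c : ℕ → ℝ[X]) :
    (aeval (MvPowerSeries.X 0 : MvPowerSeries (Fin 2) ℝ) p) * SS c = SS (fun j => p * c j) := by
  classical
  induction p using Polynomial.induction_on' with
  | add p q hp hq =>
    rw [map_add, add_mul, hp, hq]
    ext k
    rw [map_add, coeff_SS, coeff_SS, coeff_SS, add_mul, coeff_add]
  | monomial n a =>
    rw [← C_mul_X_pow_eq_monomial, map_mul, map_pow, aeval_X, aeval_C, mul_assoc, ← Algebra.smul_def]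
    ext k
    rw [coeff_SS, mul_assoc,
      coeff_C_mul, coeff_X_pow_mul', MvPowerSeries.coeff_smul,
      MvPowerSeries.X_pow_eq, MvPowerSeries.coeff_monomial_mul]
    congr 1
    have hle : (Finsupp.single 0 n ≤ k) ↔ n ≤ k 0 := by
      constructor
      · intro h; simpa using h 0
      · intro h i
        fin_cases i
        · simpa using h
        · simp
    by_cases h : n ≤ k 0
    · rw [if_pos (hle.mpr h), if_pos h, coeff_SS, one_mul]
      simp
    · rw [if_neg (fun h' => h (hle.mp h')), if_neg h]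

theorem X1_SS (c : ℕ → ℝ[X]) (k : Fin 2 →₀ ℕ) :
    MvPowerSeries.coeff k ((MvPowerSeries.X 1 : MvPowerSeries (Fin 2) ℝ) * SS c) =
      if 1 ≤ k 1 then (c (k 1 - 1)).coeff (k 0) else 0 := by
  classical
  rw [MvPowerSeries.X, MvPowerSeries.coeff_monomial_mul]
  have hle : (Finsupp.single 1 1 ≤ k) ↔ 1 ≤ k 1 := by
    constructor
    · intro h; simpa using h 1
    · intro h i
      fin_cases i
      · simp
      · simpa using h
  by_cases h : 1 ≤ k 1
  · rw [if_pos (hle.mpr h), if_pos h, coeff_SS, one_mul]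
    simp
  · rw [if_neg (fun h' => h (hle.mp h')), if_neg h]

theorem coe_aeval (p : ℝ[X]) : ((aeval (MvPolynomial.X 0 : MvPolynomial (Fin 2) ℝ) p : MvPolynomial (Fin 2) ℝ) :
    MvPowerSeries (Fin 2) ℝ) = aeval (MvPowerSeries.X 0 : MvPowerSeries (Fin 2) ℝ) p := by
  have h := Polynomial.aeval_algHom_apply (MvPolynomial.coeToMvPowerSeries.algHom (R := ℝ) ℝ)
    (MvPolynomial.X 0 : MvPolynomial (Fin 2) ℝ) p
  rw [MvPolynomial.coeToMvPowerSeries.algHom_apply, MvPolynomial.coeToMvPowerSeries.algHom_apply] at h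
  simp at h
  exact h.symm

theorem series : ((PP : MvPolynomial (Fin 2) ℝ) : MvPowerSeries (Fin 2) ℝ) *
    ((QQ : MvPolynomial (Fin 2) ℝ) : MvPowerSeries (Fin 2) ℝ)⁻¹ = SS gg := by
  classical
  symm
  rw [MvPowerSeries.eq_mul_inv_iff_mul_eq]
  · have hP : ((PP : MvPolynomial (Fin 2) ℝ) : MvPowerSeries (Fin 2) ℝ) =
        SS (fun j => if j = 0 then P1 else 0) := by
      have h1 : (1 : MvPowerSeries (Fin 2) ℝ) = SS (fun j => if j = 0 then 1 else 0) := by
        ext k
        rw [coeff_SS, MvPowerSeries.coeff_one]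
        by_cases h : k = 0
        · subst h; simp
        · rw [if_neg h]
          by_cases h1 : k 1 = 0
          · rw [if_pos h1, coeff_one, if_neg]
            intro h0
            apply h
            ext i
            fin_cases i
            · simpa using h0
            · simpa using h1
          · rw [if_neg h1, coeff_zero]
      unfold PP
      rw [coe_aeval, ← mul_one (aeval _ P1), h1, shift]
      congr 1
      funext j
      split_ifs <;> simp
    have hQ : ((QQ : MvPolynomial (Fin 2) ℝ) : MvPowerSeries (Fin 2) ℝ) =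
        1 - (MvPowerSeries.X 1) * aeval (MvPowerSeries.X 0 : MvPowerSeries (Fin 2) ℝ) F1 := by
      have h1 := map_sub (MvPolynomial.coeToMvPowerSeries.ringHom :
        MvPolynomial (Fin 2) ℝ →+* MvPowerSeries (Fin 2) ℝ) 1 (MvPolynomial.X 1 * FF)
      rw [map_one] at h1
      simp only [MvPolynomial.coeToMvPowerSeries.ringHom_apply, MvPolynomial.coe_mul,
        MvPolynomial.coe_X] at h1
      unfold QQ
      rw [h1]
      unfold FF
      rw [coe_aeval]
    rw [hP, hQ, mul_comm, sub_mul, one_mul, mul_assoc, shift]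
    ext k
    rw [map_sub, X1_SS, coeff_SS, coeff_SS]
    by_cases h : k 1 = 0
    · rw [h, if_neg (by omega), if_pos rfl, sub_zero]
      unfold gg
      simp
    · rw [if_pos (by omega), if_neg h, coeff_zero]
      obtain ⟨m, hm⟩ : ∃ m, k 1 = m + 1 := ⟨k 1 - 1, by omega⟩
      rw [hm, Nat.add_sub_cancel]
      unfold gg
      rw [pow_succ, sub_eq_zero]
      congr 1
      ring
  · rw [← MvPowerSeries.coeff_zero_eq_constantCoeff, MvPolynomial.coeff_coe,
      ← MvPolynomial.constantCoeff_eq]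
    unfold QQ
    simp

theorem const_QQ : MvPolynomial.constantCoeff QQ ≠ 0 := by
  unfold QQ
  simp

theorem not_summable : ¬ Summable (fun k : Fin 2 →₀ ℕ =>
          |MvPowerSeries.coeff k
            (((PP : MvPolynomial (Fin 2) ℝ) : MvPowerSeries (Fin 2) ℝ) *
              ((QQ : MvPolynomial (Fin 2) ℝ) : MvPowerSeries (Fin 2) ℝ)⁻¹)|) := by
  classical
  intro hsum
  rw [series] at hsum
  simp only [coeff_SS] at hsum
  -- reindex by pairs (b, a)
  let φ : ℕ × ℕ → (Fin 2 →₀ ℕ) := fun p => Finsupp.single 0 p.2 + Finsupp.single 1 p.1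
  have hφ0 : ∀ p, φ p 0 = p.2 := by intro p; simp [φ]
  have hφ1 : ∀ p, φ p 1 = p.1 := by intro p; simp [φ]
  have hφ : Function.Injective φ := by
    intro p q h
    have h0 := congrArg (fun k : Fin 2 →₀ ℕ => k 0) h
    have h1 := congrArg (fun k : Fin 2 →₀ ℕ => k 1) h
    simp only [hφ0, hφ1] at h0 h1
    exact Prod.ext h1 h0
  have h1 := hsum.comp_injective hφ
  have h2 : Summable (fun p : ℕ × ℕ => |(gg p.1).coeff p.2|) := by
    refine h1.congr fun p => ?_
    simp only [Function.comp, hφ0, hφ1]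
  have h3 := h2.prod
  have h4 : Summable (fun b : ℕ => ∑ a ∈ (gg b).support, |(gg b).coeff a|) := by
    refine h3.congr fun b => ?_
    exact tsum_eq_sum (fun a ha => by
      simp only [Polynomial.mem_support_iff, not_not] at ha
      rw [ha, abs_zero])
  obtain ⟨N, hN⟩ : ∃ N : ℕ, ∀ b, N ≤ b → 1/(800 * (b:ℝ)) ≤
    ∑ a ∈ (gg b).support, |(gg b).coeff a| := ⟨10^60, L1_low⟩
  have h5 : Summable (fun b : ℕ => 1/(800 * ((b + N : ℕ):ℝ))) := by
    apply Summable.of_nonneg_of_le (fun b => by positivity)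
      (fun b => hN (b + N) (Nat.le_add_left _ _))
    exact (summable_nat_add_iff N).mpr h4
  have h6 : Summable (fun b : ℕ => 1/(800 * (b:ℝ))) :=
    (summable_nat_add_iff (f := fun b : ℕ => 1/(800 * (b:ℝ))) N).mp h5
  have h7 : Summable (fun b : ℕ => 1/(b:ℝ)) := by
    refine (h6.mul_left 800).congr fun b => ?_
    rcases Nat.eq_zero_or_pos b with h | h
    · subst h; simp
    · have : (b:ℝ) ≠ 0 := by positivity
      field_simp
  exact Real.not_summable_one_div_natCast h7

theorem main :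
    ¬ (∀ (n : ℕ) (P Q : MvPolynomial (Fin n) ℝ),
      IsRelPrime P Q →
      MvPolynomial.constantCoeff Q ≠ 0 →
      {z : Fin n → ℂ | (∀ i, ‖z i‖ = 1) ∧ MvPolynomial.aeval z P = 0 ∧
          MvPolynomial.aeval z Q = 0}.Finite →
      (Summable (fun k : Fin n →₀ ℕ =>
          |MvPowerSeries.coeff k
            ((P : MvPowerSeries (Fin n) ℝ) * (Q : MvPowerSeries (Fin n) ℝ)⁻¹)|) ↔
        ∃ F : (Fin n → ℂ) → ℂ,
          ContinuousOn F {z : Fin n → ℂ | ∀ i, ‖z i‖ ≤ 1} ∧
          ∀ z : Fin n → ℂ, (∀ i, ‖z i‖ < 1) → MvPolynomial.aeval z Q ≠ 0 →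
            F z = MvPolynomial.aeval z P / MvPolynomial.aeval z Q)) := by
  intro h
  have h1 := h 2 PP QQ relprime const_QQ finite_zeros
  exact not_summable (h1.mpr cont_ext)

end Pool.Agent.Wien
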