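import Mathlib

set_option autoImplicit false
open Set Filter Topology

namespace Pool.Agent.Wien

theorem tendsto_zero (a : ℤ → ℝ) (hs : ∀ F : Finset ℤ, ∑ n ∈ F, (a n)^2 ≤ 1) :
    Tendsto (fun n : ℕ => a n) atTop (𝓝 0) := by
  have h1 : Summable (fun n : ℕ => (a n)^2) := by
    apply summable_of_sum_le (c := 1) (fun n => sq_nonneg _)
    intro F
    have := hs (F.map ⟨fun n : ℕ => (n:ℤ), Nat.cast_injective⟩)
    rw [Finset.sum_map] at this
    exact this
  have h2 := h1.tendsto_atTop_zero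
  have h3 : Tendsto (fun n : ℕ => √((a n)^2)) atTop (𝓝 √0) :=
    (Real.continuous_sqrt.tendsto 0).comp h2
  simp only [Real.sqrt_sq_eq_abs, Real.sqrt_zero] at h3
  exact tendsto_zero_iff_abs_tendsto_zero _ |>.mpr h3

theorem bes_nonneg (x : ℕ) (hx : 1 ≤ x) (a : ℤ → ℝ)
    (hrec : ∀ n : ℤ, 2 * n * a n = x * (a (n-1) + a (n+1)))
    (hs : ∀ F : Finset ℤ, ∑ n ∈ F, (a n)^2 ≤ 1) (n : ℕ) :
    (a (n-1) - a (n+1))^2 ≤ 20 / x := by
  have hxr : (0:ℝ) < x := by exact_mod_cast hx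
  have ha0 := tendsto_zero a hs
  let G : ℕ → ℝ := fun n => (a n)^2 - a (n-1) * a (n+1)
  have hG : ∀ n : ℕ, G n - G (n+1) = 2 / x * (a n * a (n+1)) := by
    intro n
    have h1 := hrec n
    have h2 := hrec (n+1)
    have e1 : ((n:ℤ)+1-1) = n := by ring
    rw [e1] at h2
    push_cast at h1 h2
    simp only [G]
    push_cast
    rw [e1]
    have h3 : a ((n:ℤ)-1) = 2 * n * a n / x - a ((n:ℤ)+1) := by
      field_simp; linarith
    have h4 : a ((n:ℤ)+1+1) = 2 * (n+1) * a ((n:ℤ)+1) / x - a n := by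
      field_simp; linarith
    rw [h3, h4]
    field_simp
    ring
  have hsum : ∀ n k : ℕ, G n - G (n+k) = 2 / x * ∑ m ∈ Finset.range k, a ((n+m : ℕ)) * a ((n+m:ℕ)+1) := by
    intro n k
    induction k with
    | zero => simp
    | succ k ih =>
      rw [Finset.sum_range_succ, mul_add, ← ih, ← hG (n+k)]
      rw [show n + (k+1) = n + k + 1 from rfl]
      ring
  have hbd : ∀ n k : ℕ, |∑ m ∈ Finset.range k, a ((n+m : ℕ)) * a ((n+m:ℕ)+1)| ≤ 1 := by
    intro n k
    have h1 : ∑ m ∈ Finset.range k, (a ((n+m:ℕ)))^2 ≤ 1 := by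
      have := hs ((Finset.range k).map ⟨fun m : ℕ => ((n+m:ℕ):ℤ), fun p q h => by
        simp only at h; omega⟩)
      rw [Finset.sum_map] at this
      exact this
    have h2 : ∑ m ∈ Finset.range k, (a ((n+m:ℕ)+1))^2 ≤ 1 := by
      have := hs ((Finset.range k).map ⟨fun m : ℕ => ((n+m:ℕ):ℤ)+1, fun p q h => by
        simp only at h; omega⟩)
      rw [Finset.sum_map] at this
      exact this
    calc |∑ m ∈ Finset.range k, a ((n+m : ℕ)) * a ((n+m:ℕ)+1)|
        ≤ ∑ m ∈ Finset.range k, |a ((n+m : ℕ)) * a ((n+m:ℕ)+1)| := Finset.abs_sum_le_sum_abs _ _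
      _ ≤ ∑ m ∈ Finset.range k, ((a ((n+m:ℕ)))^2 + (a ((n+m:ℕ)+1))^2)/2 := by
          refine Finset.sum_le_sum fun m _ => ?_
          rw [abs_le]
          constructor
          · nlinarith [sq_nonneg (a ((n+m:ℕ)) + a ((n+m:ℕ)+1))]
          · nlinarith [sq_nonneg (a ((n+m:ℕ)) - a ((n+m:ℕ)+1))]
      _ = (∑ m ∈ Finset.range k, (a ((n+m:ℕ)))^2 + ∑ m ∈ Finset.range k, (a ((n+m:ℕ)+1))^2)/2 := by
          rw [← Finset.sum_add_distrib, Finset.sum_div]
      _ ≤ 1 := by linarith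
  have hGlim : Tendsto G atTop (𝓝 0) := by
    have h1 : Tendsto (fun n : ℕ => a ((n:ℤ)+1)) atTop (𝓝 0) := by
      have := ha0.comp (tendsto_add_atTop_nat 1)
      refine this.congr fun n => ?_
      simp
    have h2 : Tendsto (fun n : ℕ => a ((n:ℤ)-1)) atTop (𝓝 0) := by
      have := ha0.comp (tendsto_sub_atTop_nat 1)
      refine this.congr' ?_
      filter_upwards [eventually_ge_atTop 1] with n hn
      simp only [Function.comp]
      congr 1
      omega
    have := (ha0.pow 2).sub (h2.mul h1)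
    simpa [G] using this
  have hGle : ∀ n : ℕ, G n ≤ 2 / x := by
    intro n
    have h1 : Tendsto (fun k : ℕ => G (n+k) + 2 / x) atTop (𝓝 (0 + 2 / x)) := by
      apply Tendsto.add_const
      have := hGlim.comp (tendsto_add_atTop_nat n)
      refine this.congr fun k => ?_
      simp only [Function.comp]; rw [add_comm]
    rw [zero_add] at h1
    refine ge_of_tendsto' h1 fun k => ?_
    have h2 := hsum n k
    have h3 := (abs_le.mp (hbd n k)).2
    have h4 : 2 / (x:ℝ) * ∑ m ∈ Finset.range k, a ((n+m : ℕ)) * a ((n+m:ℕ)+1) ≤ 2 / x * 1 := by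
      gcongr
    linarith
  -- key identity
  have hkey : ∀ n : ℕ, (a (n-1) - a (n+1))^2 / 4 = G n + ((n:ℝ)^2/x^2 - 1) * (a n)^2 := by
    intro n
    have h1 := hrec n
    push_cast at h1
    simp only [G]
    have h3 : a ((n:ℤ)-1) = 2 * n * a n / x - a ((n:ℤ)+1) := by
      field_simp; linarith
    rw [h3]
    field_simp
    ring
  have hmono : ∀ n : ℕ, x ≤ n → |a ((n:ℤ)+1)| ≤ |a n| := by
    intro n hn
    by_contra hcon
    push Not at hcon
    have hgrow : ∀ k : ℕ, |a ((n+k:ℕ))| < |a ((n+k:ℕ)+1)| := by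
      intro k
      induction k with
      | zero => simpa using hcon
      | succ k ih =>
        have h1 := hrec ((n+k:ℕ)+1)
        have e1 : ((n+k:ℕ):ℤ)+1-1 = ((n+k:ℕ):ℤ) := by ring
        rw [e1] at h1
        have e2 : (((n+(k+1):ℕ)):ℤ) = ((n+k:ℕ):ℤ)+1 := by push_cast; ring
        rw [e2]
        set p := a ((n+k:ℕ):ℤ)
        set q := a (((n+k:ℕ):ℤ)+1)
        set r := a (((n+k:ℕ):ℤ)+1+1)
        have h2 : x * r = 2 * (((n+k:ℕ):ℝ)+1) * q - x * p := by
          push_cast at h1 ⊢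
          linarith
        have h3 : 2 * (((n+k:ℕ):ℝ)+1) * |q| ≤ x * |r| + x * |p| := by
          have h4 : 2 * (((n+k:ℕ):ℝ)+1) * q = x * r + x * p := by linarith
          have h5 : |2 * (((n+k:ℕ):ℝ)+1) * q| = 2 * (((n+k:ℕ):ℝ)+1) * |q| := by
            rw [abs_mul, abs_of_nonneg (by positivity)]
          rw [← h5, h4]
          refine (abs_add_le _ _).trans ?_
          rw [abs_mul, abs_mul, abs_of_pos hxr]
        have h6 : (x:ℝ) ≤ ((n+k:ℕ):ℝ)+1 := by
          have : (x:ℝ) ≤ ((n+k:ℕ):ℝ) := by exact_mod_cast (le_trans hn (Nat.le_add_right n k))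
          linarith
        have h7 : 2 * (x:ℝ) * |q| ≤ 2 * (((n+k:ℕ):ℝ)+1) * |q| := by gcongr
        have h8 : (x:ℝ) * |p| < x * |q| := by gcongr
        have h9 : (x:ℝ) * |q| < x * |r| := by linarith
        exact lt_of_mul_lt_mul_left h9 hxr.le
    have hge : ∀ k : ℕ, |a ((n:ℤ)+1)| ≤ |a ((n+k:ℕ)+1)| := by
      intro k
      induction k with
      | zero => simp
      | succ k ih =>
        have h1 := hgrow (k+1)
        have e2 : (((n+(k+1):ℕ)):ℤ) = ((n+k:ℕ):ℤ)+1 := by push_cast; ring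
        rw [e2] at h1
        rw [e2]
        exact ih.trans h1.le
    have hlim : Tendsto (fun k : ℕ => |a ((n+k:ℕ)+1)|) atTop (𝓝 0) := by
      have h1 := (ha0.comp (tendsto_add_atTop_nat (n+1))).abs
      rw [abs_zero] at h1
      refine h1.congr fun k => ?_
      simp only [Function.comp]
      congr 2
      push_cast; ring
    have h2 : |a ((n:ℤ)+1)| ≤ 0 := ge_of_tendsto' hlim hge
    have h3 : 0 ≤ |a n| := abs_nonneg _
    linarith
  have hdecay : ∀ k : ℕ, ((k:ℝ)+1) * (a ((x+k:ℕ)))^2 ≤ 1 := by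
    intro k
    have h1 : ∑ m ∈ Finset.range (k+1), (a ((x+m:ℕ)))^2 ≤ 1 := by
      have := hs ((Finset.range (k+1)).map ⟨fun m : ℕ => ((x+m:ℕ):ℤ), fun p q h => by
        simp only at h; omega⟩)
      rw [Finset.sum_map] at this
      exact this
    have hm : ∀ m d : ℕ, |a ((x+(m+d):ℕ))| ≤ |a ((x+m:ℕ))| := by
      intro m d
      induction d with
      | zero => simp
      | succ d ih =>
        have := hmono (x+(m+d)) (by omega)
        have e : ((x+(m+(d+1)) : ℕ) : ℤ) = ((x+(m+d):ℕ):ℤ)+1 := by push_cast; ring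
        rw [e]
        exact this.trans ih
    have h2 : ∀ m ∈ Finset.range (k+1), (a ((x+k:ℕ)))^2 ≤ (a ((x+m:ℕ)))^2 := by
      intro m hmk
      have hmk' : m ≤ k := Nat.lt_succ_iff.mp (Finset.mem_range.mp hmk)
      obtain ⟨d, rfl⟩ := Nat.exists_eq_add_of_le hmk'
      exact sq_le_sq.mpr (hm m d)
    have h3 := Finset.card_nsmul_le_sum _ _ _ h2
    rw [Finset.card_range, nsmul_eq_mul] at h3
    push_cast at h3
    exact h3.trans h1
  -- conclude
  have hfin : (a (n-1) - a (n+1))^2 / 4 ≤ 5 / x := by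
    rcases le_or_gt n x with hn | hn
    · rw [hkey]
      have h1 : (n:ℝ)^2/x^2 ≤ 1 := by
        rw [div_le_one (by positivity)]
        have : (n:ℝ) ≤ x := by exact_mod_cast hn
        gcongr
      have h2 : ((n:ℝ)^2/x^2 - 1) * (a n)^2 ≤ 0 := by
        apply mul_nonpos_of_nonpos_of_nonneg _ (sq_nonneg _)
        linarith
      have h3 := hGle n
      have h4 : 2 / (x:ℝ) ≤ 5 / x := by gcongr; norm_num
      linarith
    · rcases le_or_gt n (2*x) with hn2 | hn2
      · rw [hkey]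
        obtain ⟨k, rfl⟩ := Nat.exists_eq_add_of_lt hn
        have h1 := hdecay (k+1)
        have e1 : x + (k+1) = x + k + 1 := rfl
        rw [e1] at h1
        set y := (a ((x+k+1:ℕ)))^2 with hy
        have hy0 : 0 ≤ y := sq_nonneg _
        have hkx : ((k:ℝ)+1) ≤ x := by
          have : k + 1 ≤ x := by omega
          exact_mod_cast this
        have h2 : (((x+k+1:ℕ):ℝ)^2/x^2 - 1) * y ≤ 3 / x := by
          have h3 : ((x+k+1:ℕ):ℝ)^2/x^2 - 1 = (((k:ℝ)+1) * (2*x+k+1))/x^2 := by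
            push_cast
            field_simp
            ring
          rw [h3, div_mul_eq_mul_div, div_le_div_iff₀ (by positivity) hxr]
          push_cast at h1
          have h4 : ((k:ℝ)+1) * y ≤ 1 := by nlinarith
          have h5 : (2*(x:ℝ)+k+1) ≤ 3 * x := by linarith
          calc ((k:ℝ)+1) * (2*x+k+1) * y * x = (((k:ℝ)+1) * y) * ((2*x+k+1) * x) := by ring
            _ ≤ 1 * ((3*x) * x) := by gcongr
            _ = 3 * x^2 := by ring
        have h3 := hGle (x+k+1)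
        have h4 : 2 / (x:ℝ) + 3 / x = 5 / x := by ring
        linarith
      · -- n > 2x
        obtain ⟨k, hk⟩ := Nat.exists_eq_add_of_lt hn
        -- a (n-1) with n - 1 = x + k
        have h1 := hdecay k
        have e1 : ((n:ℤ)-1) = ((x+k:ℕ):ℤ) := by omega
        have hxk : (x:ℝ) ≤ (k:ℝ)+1 := by
          have : x ≤ k + 1 := by omega
          exact_mod_cast this
        have h2 : |a ((n:ℤ)+1)| ≤ |a ((n:ℤ)-1)| := by
          have h3 := hmono n hn.le
          have h4 := hmono (x+k) (by omega)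
          have e2 : ((x+k:ℕ):ℤ)+1 = n := by omega
          rw [e2, ← e1] at h4
          exact h3.trans h4
        have h3 : (a ((n:ℤ)-1))^2 ≤ 1 / x := by
          rw [e1, le_div_iff₀ hxr]
          have := sq_nonneg (a ((x+k:ℕ):ℤ))
          nlinarith
        have h4 : (a ((n:ℤ)+1))^2 ≤ (a ((n:ℤ)-1))^2 := sq_le_sq.mpr h2
        have h5 : (a ((n:ℤ)-1) - a ((n:ℤ)+1))^2 ≤ 2 * ((a ((n:ℤ)-1))^2 + (a ((n:ℤ)+1))^2) := by
          nlinarith [sq_nonneg (a ((n:ℤ)-1) + a ((n:ℤ)+1))]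
        have h6 : 1 / (x:ℝ) ≤ 5 / x := by gcongr; norm_num
        linarith
  have : (20:ℝ)/x = 4 * (5/x) := by ring
  rw [this]
  linarith

theorem bes (x : ℕ) (hx : 1 ≤ x) (a : ℤ → ℝ)
    (hrec : ∀ n : ℤ, 2 * n * a n = x * (a (n-1) + a (n+1)))
    (hs : ∀ F : Finset ℤ, ∑ n ∈ F, (a n)^2 ≤ 1) (n : ℤ) :
    (a (n-1) - a (n+1))^2 ≤ 20 / x := by
  obtain ⟨m, rfl | rfl⟩ := n.eq_nat_or_neg
  · exact bes_nonneg x hx a hrec hs m
  · let b : ℤ → ℝ := fun n => (-1:ℝ)^n * a (-n)
    have hsq : ∀ n : ℤ, ((-1:ℝ)^n)^2 = 1 := by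
      intro n
      rw [← zpow_natCast, ← zpow_mul, mul_comm, zpow_mul]
      norm_num
    have hb := bes_nonneg x hx b (by
      intro n
      have h1 := hrec (-n)
      have e1 : -n - 1 = -(n+1) := by ring
      have e2 : -n + 1 = -(n-1) := by ring
      rw [e1, e2] at h1
      push_cast at h1
      simp only [b]
      rw [zpow_sub_one₀ (by norm_num), zpow_add_one₀ (by norm_num)]
      have : 2 * (n:ℝ) * ((-1:ℝ)^n * a (-n)) = -((-1:ℝ)^n * (2 * -(n:ℝ) * a (-n))) := by ring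
      rw [this, h1]
      ring) (by
      intro F
      have := hs (F.map ⟨fun n : ℤ => -n, neg_injective⟩)
      rw [Finset.sum_map] at this
      refine le_trans (le_of_eq ?_) this
      refine Finset.sum_congr rfl fun n _ => ?_
      simp only [b, Function.Embedding.coeFn_mk]
      rw [mul_pow, hsq, one_mul]) m
    have e1 : -(m:ℤ) - 1 = -((m:ℤ)+1) := by ring
    have e2 : -(m:ℤ) + 1 = -((m:ℤ)-1) := by ring
    rw [e1, e2]
    simp only [b] at hb
    rw [zpow_sub_one₀ (by norm_num), zpow_add_one₀ (by norm_num)] at hb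
    refine le_trans (le_of_eq ?_) hb
    have : ((-1:ℝ)^(m:ℤ) * (-1)⁻¹ * a (-((m:ℤ)-1)) - (-1:ℝ)^(m:ℤ) * (-1) * a (-((m:ℤ)+1)))^2 =
      ((-1:ℝ)^(m:ℤ))^2 * (a (-((m:ℤ)+1)) - a (-((m:ℤ)-1)))^2 := by ring
    rw [this, hsq, one_mul]

end Pool.Agent.Wien
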