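import Pool.Agent.Wien.Bes

set_option autoImplicit false
open Set Filter Topology MeasureTheory Real

namespace Pool.Agent.Wien

/-- phase -/
noncomputable def ph (b : ℕ) (n : ℤ) (t : ℝ) : ℝ := n * t - b * sin t

noncomputable def aa (b : ℕ) (n : ℤ) : ℝ := (2*π)⁻¹ * ∫ t in (0:ℝ)..(2*π), cos (ph b n t)

theorem ph_cont (b : ℕ) (n : ℤ) : Continuous (ph b n) := by unfold ph; fun_prop

theorem ph_add (b : ℕ) (n : ℤ) (t : ℝ) : ph b (n+1) t = ph b n t + t := by
  unfold ph; push_cast; ring

theorem ph_sub (b : ℕ) (n : ℤ) (t : ℝ) : ph b (n-1) t = ph b n t - t := by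
  unfold ph; push_cast; ring

theorem ph_refl (b : ℕ) (n : ℤ) (t : ℝ) : ph b n (2*π - t) = -(ph b n t) + n * (2*π) := by
  unfold ph
  rw [show 2*π - t = -t + 2*π by ring, sin_add_two_pi, sin_neg]; ring

theorem int_sin (b : ℕ) (n : ℤ) : ∫ t in (0:ℝ)..(2*π), sin (ph b n t) = 0 := by
  have h1 : ∫ t in (0:ℝ)..(2*π), sin (ph b n (2*π - t)) = ∫ t in (0:ℝ)..(2*π), sin (ph b n t) := by
    rw [intervalIntegral.integral_comp_sub_left (fun t => sin (ph b n t)) (2*π)]
    simp
  have h2 : ∀ t, sin (ph b n (2*π - t)) = - sin (ph b n t) := by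
    intro t
    rw [ph_refl, sin_add_int_mul_two_pi, sin_neg]
  simp only [h2, intervalIntegral.integral_neg] at h1
  linarith

theorem rec_aa (b : ℕ) (n : ℤ) : 2 * n * aa b n = b * (aa b (n-1) + aa b (n+1)) := by
  have hderiv : ∀ t : ℝ, HasDerivAt (fun t => sin (ph b n t)) (cos (ph b n t) * (n - b * cos t)) t := by
    intro t
    have h1 : HasDerivAt (ph b n) (n - b * cos t) t := by
      unfold ph
      have h2 := ((hasDerivAt_id' t).const_mul (n:ℝ)).fun_sub ((hasDerivAt_sin t).const_mul (b:ℝ))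
      simpa using h2
    exact h1.sin
  have hint : ∫ t in (0:ℝ)..(2*π), cos (ph b n t) * (n - b * cos t) = 0 := by
    rw [intervalIntegral.integral_eq_sub_of_hasDerivAt (fun t _ => hderiv t)]
    · unfold ph
      rw [sin_two_pi, sin_zero]
      simp only [mul_zero, sub_zero]
      have h0 := sin_add_int_mul_two_pi 0 n
      rw [zero_add, sin_zero] at h0
      rw [h0, sin_zero, sub_zero]
    · apply Continuous.intervalIntegrable
      have := ph_cont b n
      fun_prop
  have hpt : ∀ t, cos (ph b n t) * (n - b * cos t) =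
      n * cos (ph b n t) - b/2 * cos (ph b (n-1) t) - b/2 * cos (ph b (n+1) t) := by
    intro t
    rw [ph_add, ph_sub, cos_add, cos_sub]; ring
  simp only [hpt] at hint
  have hi : ∀ m : ℤ, IntervalIntegrable (fun t => cos (ph b m t)) volume 0 (2*π) := fun m =>
    (continuous_cos.comp (ph_cont b m)).intervalIntegrable _ _
  rw [intervalIntegral.integral_sub (((hi n).const_mul _).sub ((hi (n-1)).const_mul _))
    ((hi (n+1)).const_mul _), intervalIntegral.integral_sub ((hi n).const_mul _)
    ((hi (n-1)).const_mul _), intervalIntegral.integral_const_mul,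
    intervalIntegral.integral_const_mul, intervalIntegral.integral_const_mul] at hint
  unfold aa
  have hpi : (2*π) ≠ 0 := by positivity
  linear_combination (2 * (2*π)⁻¹) * hint

theorem bes_ineq (b : ℕ) (F : Finset ℤ) : ∑ n ∈ F, (aa b n)^2 ≤ 1 := by
  have h2pi : (0:ℝ) < 2*π := by positivity
  let f : ℝ → ℂ := fun t => Complex.exp (Complex.I * ((b * sin t : ℝ) : ℂ))
  have hfc : Continuous f := by fun_prop
  have hfn : ∀ t, ‖f t‖ = 1 := by
    intro t
    simp only [f]
    rw [mul_comm, Complex.norm_exp_ofReal_mul_I]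
  have hL2 : MemLp f 2 (volume.restrict (Ioc 0 (2*π))) := by
    apply MemLp.of_bound hfc.aestronglyMeasurable 1
    exact Eventually.of_forall fun t => (hfn t).le
  have hS := hasSum_sq_fourierCoeffOn h2pi hL2
  have htot : (2*π - 0)⁻¹ • ∫ x in (0:ℝ)..(2*π), ‖f x‖^2 = 1 := by
    simp only [hfn]
    simp
    field_simp
  rw [htot] at hS
  have hle : ∀ n : ℤ, (aa b n)^2 ≤ ‖fourierCoeffOn h2pi f n‖^2 := by
    intro n
    have h1 : aa b n = (fourierCoeffOn h2pi f n).re := by
      rw [fourierCoeffOn_eq_integral]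
      have h3 : ∀ x : ℝ, (fourier (-n) (x : AddCircle (2*π - 0)) • f x) =
          Complex.exp (((-(ph b n x) : ℝ) : ℂ) * Complex.I) := by
        intro x
        rw [fourier_coe_apply, smul_eq_mul]
        simp only [f]
        rw [← Complex.exp_add]
        congr 1
        unfold ph
        push_cast
        have : (π:ℂ) ≠ 0 := by exact_mod_cast Real.pi_ne_zero
        field_simp
        ring
      simp only [h3]
      have h4 : (∫ x in (0:ℝ)..(2*π), Complex.exp (((-(ph b n x) : ℝ) : ℂ) * Complex.I)).re =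
          ∫ x in (0:ℝ)..(2*π), cos (ph b n x) := by
        have h5 := intervalIntegral.intervalIntegral_eq_integral_uIoc
          (fun x => Complex.exp (((-(ph b n x) : ℝ) : ℂ) * Complex.I)) 0 (2*π) volume
        have h6 := Complex.reCLM.intervalIntegral_comp_comm (μ := volume) (a := 0) (b := 2*π)
          (f := fun x => Complex.exp (((-(ph b n x) : ℝ) : ℂ) * Complex.I)) (by
            apply Continuous.intervalIntegrable
            have := ph_cont b n
            fun_prop)
        rw [Complex.reCLM_apply] at h6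
        rw [← h6]
        congr 1
        funext x
        rw [Complex.reCLM_apply, Complex.exp_ofReal_mul_I_re, cos_neg]
      rw [Complex.real_smul, Complex.re_ofReal_mul, h4]
      unfold aa
      simp
    rw [h1, sq, sq]
    have := Complex.abs_re_le_norm (fourierCoeffOn h2pi f n)
    rw [← abs_mul_abs_self (fourierCoeffOn h2pi f n).re]
    gcongr
  calc ∑ n ∈ F, (aa b n)^2 ≤ ∑ n ∈ F, ‖fourierCoeffOn h2pi f n‖^2 :=
        Finset.sum_le_sum fun n _ => hle n
    _ ≤ 1 := sum_le_hasSum F (fun n _ => sq_nonneg _) hS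

/-- the test function has small Fourier coefficients -/
theorem tau_bound (b : ℕ) (hb : 1 ≤ b) (n : ℤ) :
    |∫ t in (0:ℝ)..(2*π), sin (ph b n t) * sin t| ≤ π * √(20 / b) := by
  have h1 := bes b hb (aa b) (rec_aa b) (bes_ineq b) n
  have hpt : ∀ t, sin (ph b n t) * sin t = 1/2 * cos (ph b (n-1) t) - 1/2 * cos (ph b (n+1) t) := by
    intro t
    rw [ph_add, ph_sub, cos_add, cos_sub]; ring
  have hi : ∀ m : ℤ, IntervalIntegrable (fun t => cos (ph b m t)) volume 0 (2*π) := fun m =>
    (continuous_cos.comp (ph_cont b m)).intervalIntegrable _ _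
  simp only [hpt]
  rw [intervalIntegral.integral_sub ((hi (n-1)).const_mul _) ((hi (n+1)).const_mul _),
    intervalIntegral.integral_const_mul, intervalIntegral.integral_const_mul]
  have h2 : 1/2 * (∫ t in (0:ℝ)..(2*π), cos (ph b (n-1) t)) -
      1/2 * (∫ t in (0:ℝ)..(2*π), cos (ph b (n+1) t)) = π * (aa b (n-1) - aa b (n+1)) := by
    unfold aa
    have hpi : π ≠ 0 := Real.pi_ne_zero
    field_simp
  rw [h2, abs_mul, abs_of_pos Real.pi_pos]
  have h3 : |aa b (n-1) - aa b (n+1)| ≤ √(20 / b) := by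
    rw [← Real.sqrt_sq_eq_abs]
    exact Real.sqrt_le_sqrt h1
  have := Real.pi_pos
  gcongr

end Pool.Agent.Wien
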