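import Pool.Agent.Wien.Four

set_option autoImplicit false
open Set Filter Topology MeasureTheory Real

namespace Pool.Agent.Wien

/-- modified truncated exponential -/
noncomputable def Ef (u : ℂ) : ℂ := ∑ k ∈ Finset.range 8, u^k / (k.factorial : ℂ) + (1/10) * u^6 * (1 + u)

noncomputable def Rf (s : ℝ) : ℂ := Ef (s * Complex.I) * Complex.exp (-(s * Complex.I))

theorem Ef_close (s : ℝ) (hs : |s| ≤ 1) :
    ‖Ef (s * Complex.I) - Complex.exp (s * Complex.I) * (1 - s^6/10)‖ ≤ 2/25 * s^8 := by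
  set u : ℂ := s * Complex.I with hu
  have hun : ‖u‖ = |s| := by rw [hu, norm_mul, Complex.norm_I, mul_one, Complex.norm_real, Real.norm_eq_abs]
  have h1 := Complex.exp_bound (x := u) (by rw [hun]; exact hs) (n := 8) (by norm_num)
  have h2 := Complex.exp_bound (x := u) (by rw [hun]; exact hs) (n := 2) (by norm_num)
  have hu6 : u^6 = -(s:ℂ)^6 := by
    rw [hu, mul_pow]
    have : Complex.I^6 = -1 := by
      calc Complex.I^6 = (Complex.I^2)^3 := by ring
        _ = -1 := by rw [Complex.I_sq]; norm_num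
    rw [this]; ring
  have h3 : Ef u - Complex.exp u * (1 - s^6/10) =
      -(Complex.exp u - ∑ k ∈ Finset.range 8, u^k / (k.factorial : ℂ)) +
      ((s:ℂ)^6/10) * (Complex.exp u - ∑ k ∈ Finset.range 2, u^k / (k.factorial : ℂ)) := by
    unfold Ef
    rw [hu6]
    have : ∑ k ∈ Finset.range 2, u^k / (k.factorial : ℂ) = 1 + u := by
      simp [Finset.sum_range_succ]
    rw [this]
    ring
  rw [h3]
  have hs8 : |s|^8 = s^8 := by
    rw [← abs_pow]; exact abs_of_nonneg (by positivity)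
  have hs2 : |s|^2 = s^2 := sq_abs s
  refine (norm_add_le _ _).trans ?_
  rw [norm_neg, norm_mul]
  have h4 : ‖(s:ℂ)^6/10‖ = s^6/10 := by
    rw [norm_div, norm_pow, Complex.norm_real, Real.norm_eq_abs, ← abs_pow,
      abs_of_nonneg (by positivity)]
    simp
  rw [h4]
  rw [hun, hs8] at h1
  rw [hun, hs2] at h2
  have h5 : s^6/10 * ‖Complex.exp u - ∑ k ∈ Finset.range 2, u^k / (k.factorial : ℂ)‖ ≤
      s^6/10 * (s^2 * (((Nat.succ 2 : ℕ):ℝ) * ((Nat.factorial 2 : ℝ) * (2:ℕ))⁻¹)) := by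
    gcongr
  have h6 : s^8 * (((Nat.succ 8 : ℕ):ℝ) * ((Nat.factorial 8 : ℝ) * (8:ℕ))⁻¹) ≤ 1/1000 * s^8 := by
    rw [mul_comm]
    have : (0:ℝ) ≤ s^8 := by positivity
    apply mul_le_mul_of_nonneg_right _ this
    norm_num [Nat.factorial]
  have h7 : s^6/10 * (s^2 * (((Nat.succ 2 : ℕ):ℝ) * ((Nat.factorial 2 : ℝ) * (2:ℕ))⁻¹)) = 3/40 * s^8 := by
    norm_num [Nat.factorial]
    ring
  rw [h7] at h5
  have : (0:ℝ) ≤ s^8 := by positivity
  linarith

theorem s_pow {s : ℝ} (hs : |s| ≤ 1) : 0 ≤ s^6 ∧ s^6 ≤ 1 ∧ s^8 ≤ s^6 := by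
  have h1 : s^2 ≤ 1 := by
    rw [← sq_abs]; exact pow_le_one₀ (abs_nonneg _) hs
  have h0 : 0 ≤ s^2 := sq_nonneg s
  have h6 : (0:ℝ) ≤ s^6 := by positivity
  refine ⟨h6, ?_, ?_⟩
  · have : s^6 = (s^2)^3 := by ring
    rw [this]; exact pow_le_one₀ h0 h1
  · have : s^8 = s^6 * s^2 := by ring
    rw [this]; nlinarith

theorem Ef_norm (s : ℝ) (hs : |s| ≤ 1) : ‖Ef (s * Complex.I)‖ ≤ 1 - s^6/50 := by
  have h1 := Ef_close s hs
  obtain ⟨h6, h61, h86⟩ := s_pow hs
  have h2 : ‖Complex.exp (s * Complex.I) * (1 - s^6/10)‖ = 1 - s^6/10 := by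
    rw [norm_mul, Complex.norm_exp_ofReal_mul_I, one_mul]
    have : (1 - (s:ℂ)^6/10) = ((1 - s^6/10 : ℝ) : ℂ) := by push_cast; ring
    rw [this, Complex.norm_real, Real.norm_eq_abs, abs_of_nonneg (by linarith)]
  have h3 : ‖Ef (s * Complex.I)‖ ≤ ‖Ef (s * Complex.I) - Complex.exp (s * Complex.I) * (1 - s^6/10)‖ +
      ‖Complex.exp (s * Complex.I) * (1 - s^6/10)‖ := by
    have := norm_add_le (Ef (s * Complex.I) - Complex.exp (s * Complex.I) * (1 - s^6/10))
      (Complex.exp (s * Complex.I) * (1 - s^6/10))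
    simpa using this
  rw [h2] at h3
  linarith

theorem Rf_norm (s : ℝ) (hs : |s| ≤ 1) : ‖Rf s‖ ≤ 1 - s^6/50 := by
  unfold Rf
  rw [norm_mul]
  have : ‖Complex.exp (-(s * Complex.I))‖ = 1 := by
    rw [← neg_mul, ← Complex.ofReal_neg, Complex.norm_exp_ofReal_mul_I]
  rw [this, mul_one]
  exact Ef_norm s hs

theorem Rf_close (s : ℝ) (hs : |s| ≤ 1) : ‖Rf s - ((1 - s^6/10 : ℝ) : ℂ)‖ ≤ 2/25 * s^8 := by
  have h1 := Ef_close s hs
  have h0 : ‖Complex.exp (-(s * Complex.I))‖ = 1 := by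
    rw [← neg_mul, ← Complex.ofReal_neg, Complex.norm_exp_ofReal_mul_I]
  have h2 : Rf s - ((1 - s^6/10 : ℝ) : ℂ) =
      (Ef (s * Complex.I) - Complex.exp (s * Complex.I) * (1 - s^6/10)) * Complex.exp (-(s * Complex.I)) := by
    unfold Rf
    rw [sub_mul]
    have : Complex.exp (s * Complex.I) * (1 - s^6/10) * Complex.exp (-(s * Complex.I)) =
        (1 - s^6/10) * (Complex.exp (s * Complex.I) * Complex.exp (-(s * Complex.I))) := by ring
    rw [this, ← Complex.exp_add, add_neg_cancel, Complex.exp_zero, mul_one]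
    push_cast; ring
  rw [h2, norm_mul, h0, mul_one]
  exact h1

theorem pow_sub_pow_le (x y : ℂ) (M : ℝ) (hx : ‖x‖ ≤ M) (hy : ‖y‖ ≤ M) (n : ℕ) :
    ‖x^(n+1) - y^(n+1)‖ ≤ (n+1) * ‖x - y‖ * M^n := by
  have hM : 0 ≤ M := (norm_nonneg x).trans hx
  induction n with
  | zero => simp
  | succ n ih =>
    have h1 : x^(n+1+1) - y^(n+1+1) = x^(n+1) * (x - y) + (x^(n+1) - y^(n+1)) * y := by ring
    rw [h1]
    refine (norm_add_le _ _).trans ?_
    rw [norm_mul, norm_mul, norm_pow]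
    have h2 : ‖x‖^(n+1) ≤ M^(n+1) := pow_le_pow_left₀ (norm_nonneg _) hx _
    calc ‖x‖^(n+1) * ‖x - y‖ + ‖x^(n+1) - y^(n+1)‖ * ‖y‖
        ≤ M^(n+1) * ‖x - y‖ + ((n+1) * ‖x - y‖ * M^n) * M := by gcongr
      _ = ((n+1:ℕ)+1) * ‖x - y‖ * M^(n+1) := by push_cast; ring

theorem pt_low (b : ℕ) (hb : 1 ≤ b) (δ : ℝ) (hδ : 0 < δ) (hbδ : b * δ^6 = 1) (s : ℝ) (hs : |s| ≤ 1) :
    s^8 * (1 - s^6/10)^b - 180001 * δ^10 ≤ s^8 * (Rf s ^ b).re := by
  obtain ⟨h6, h61, h86⟩ := s_pow hs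
  obtain ⟨n, rfl⟩ : ∃ n, b = n + 1 := ⟨b - 1, by omega⟩
  set M : ℝ := 1 - s^6/50 with hM
  have hM0 : 0 ≤ M := by rw [hM]; linarith
  have hA : ‖((1 - s^6/10 : ℝ) : ℂ)‖ ≤ M := by
    rw [Complex.norm_real, Real.norm_eq_abs, abs_of_nonneg (by linarith), hM]; linarith
  have h1 := pow_sub_pow_le (Rf s) ((1 - s^6/10 : ℝ) : ℂ) M (Rf_norm s hs) hA n
  have h2 := Rf_close s hs
  have h3 : ‖Rf s^(n+1) - ((1 - s^6/10 : ℝ) : ℂ)^(n+1)‖ ≤ (n+1) * (2/25 * s^8) * M^n := by
    refine h1.trans ?_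
    gcongr
  have h4 : (1 - s^6/10)^(n+1) - (Rf s^(n+1)).re ≤ (n+1) * (2/25 * s^8) * M^n := by
    have h5 := Complex.abs_re_le_norm (Rf s^(n+1) - ((1 - s^6/10 : ℝ) : ℂ)^(n+1))
    have h6 := (abs_le.mp (h5.trans h3)).1
    rw [Complex.sub_re, ← Complex.ofReal_pow, Complex.ofReal_re] at h6
    linarith
  have hs8 : (0:ℝ) ≤ s^8 := by positivity
  -- bound on the error
  have h7 : s^8 * ((n+1) * (2/25 * s^8) * M^n) ≤ 180001 * δ^10 := by
    set t : ℝ := |s|/δ with ht
    have ht0 : 0 ≤ t := by positivity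
    have hst : s^16 = δ^16 * t^16 := by
      have : |s| = δ * t := by rw [ht]; field_simp
      rw [← mul_pow, ← this, ← abs_pow]
      exact (abs_of_nonneg (by positivity)).symm
    have hy : s^6 * (n+1) = t^6 := by
      have h8 : s^6 = δ^6 * t^6 := by
        have : |s| = δ * t := by rw [ht]; field_simp
        rw [← mul_pow, ← this, ← abs_pow]
        exact (abs_of_nonneg (by positivity)).symm
      push_cast at hbδ
      rw [h8]
      calc δ^6 * t^6 * (n+1) = ((n+1) * δ^6) * t^6 := by ring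
        _ = t^6 := by rw [hbδ, one_mul]
    have hMn : M^n ≤ Real.exp (1/50) * Real.exp (-(t^6/50)) := by
      have h9 : M ≤ Real.exp (-(s^6/50)) := by
        have := Real.add_one_le_exp (-(s^6/50))
        rw [hM]; linarith
      calc M^n ≤ (Real.exp (-(s^6/50)))^n := pow_le_pow_left₀ hM0 h9 n
        _ = Real.exp (-(n * (s^6/50))) := by rw [← Real.exp_nat_mul]; congr 1; ring
        _ ≤ Real.exp (1/50 + -(t^6/50)) := by
            apply Real.exp_le_exp.mpr
            rw [← hy]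
            nlinarith
        _ = _ := Real.exp_add _ _
    have hM1 : M^n ≤ 1 := pow_le_one₀ hM0 (by rw [hM]; linarith)
    have hMn0 : 0 ≤ M^n := pow_nonneg hM0 n
    have he50 : Real.exp (1/50) ≤ 3 := by
      have h10 : Real.exp (1/50) ≤ Real.exp 1 := Real.exp_le_exp.mpr (by norm_num)
      have h11 := Real.exp_one_lt_d9
      linarith
    have h12 : t^18 * M^n ≤ 2250000 := by
      have h13 : (t^6/50)^3 / (Nat.factorial 3) ≤ Real.exp (t^6/50) :=
        Real.pow_div_factorial_le_exp _ (by positivity) 3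
      have h14 : t^18 * Real.exp (-(t^6/50)) ≤ 750000 := by
        rw [Real.exp_neg]
        rw [mul_inv_le_iff₀ (Real.exp_pos _)]
        have h15 : (t^6/50)^3 = t^18/125000 := by ring
        rw [h15] at h13
        norm_num [Nat.factorial] at h13
        linarith
      calc t^18 * M^n ≤ t^18 * (Real.exp (1/50) * Real.exp (-(t^6/50))) := by gcongr
        _ = Real.exp (1/50) * (t^18 * Real.exp (-(t^6/50))) := by ring
        _ ≤ 3 * 750000 := by gcongr
        _ = 2250000 := by norm_num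
    have h16 : t^16 ≤ 1 + t^18 := by
      rcases le_total t 1 with h | h
      · have : t^16 ≤ 1 := pow_le_one₀ ht0 h
        have : 0 ≤ t^18 := by positivity
        linarith
      · have : t^16 ≤ t^18 := pow_le_pow_right₀ h (by norm_num)
        linarith
    have h17 : t^16 * M^n ≤ 2250001 := by
      calc t^16 * M^n ≤ (1 + t^18) * M^n := by gcongr
        _ = M^n + t^18 * M^n := by ring
        _ ≤ 1 + 2250000 := by linarith
        _ = 2250001 := by norm_num
    have h18 : s^8 * ((n+1) * (2/25 * s^8) * M^n) = 2/25 * δ^10 * (t^16 * M^n) := by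
      calc s^8 * ((n+1) * (2/25 * s^8) * M^n) = 2/25 * (s^16 * (n+1)) * M^n := by ring
        _ = 2/25 * (δ^16 * t^16 * (n+1)) * M^n := by rw [hst]
        _ = 2/25 * (δ^10 * ((n+1) * δ^6)) * (t^16 * M^n) := by ring
        _ = 2/25 * δ^10 * (t^16 * M^n) := by
            push_cast at hbδ
            rw [hbδ, mul_one]
    rw [h18]
    have : (0:ℝ) < δ^10 := by positivity
    nlinarith
  nlinarith

theorem int_low (b : ℕ) (hb : 1 ≤ b) (δ : ℝ) (hδ : 0 < δ) (hbδ : b * δ^6 = 1)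
    (hδs : δ ≤ 1/10^10) :
    δ^9/5120 ≤ ∫ t in (0:ℝ)..(2*π), (sin t)^8 * (Rf (sin t) ^ b).re := by
  have hRc : Continuous Rf := by unfold Rf Ef; fun_prop
  have hpi := Real.pi_pos
  have hpi4 := Real.pi_lt_four
  have hδ1 : δ ≤ 1 := hδs.trans (by norm_num)
  have h1 : ∫ t in (0:ℝ)..(2*π), ((sin t)^8 * (1 - (sin t)^6/10)^b - 180001 * δ^10) ≤
      ∫ t in (0:ℝ)..(2*π), (sin t)^8 * (Rf (sin t) ^ b).re := by
    apply intervalIntegral.integral_mono_on (by positivity)
    · apply Continuous.intervalIntegrable; fun_prop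
    · apply Continuous.intervalIntegrable
      have : Continuous fun t : ℝ => (Rf (sin t) ^ b).re :=
        Complex.continuous_re.comp ((hRc.comp continuous_sin).pow b)
      fun_prop
    · intro t _
      exact pt_low b hb δ hδ hbδ (sin t) (abs_sin_le_one t)
  rw [intervalIntegral.integral_sub (by apply Continuous.intervalIntegrable; fun_prop)
    (by apply Continuous.intervalIntegrable; fun_prop), intervalIntegral.integral_const] at h1
  have hnn : ∀ t : ℝ, 0 ≤ (sin t)^8 * (1 - (sin t)^6/10)^b := by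
    intro t
    obtain ⟨h6, h61, _⟩ := s_pow (abs_sin_le_one t)
    have : 0 ≤ 1 - (sin t)^6/10 := by linarith
    positivity
  have h2 : ∫ t in (0:ℝ)..δ, (sin t)^8 * (1 - (sin t)^6/10)^b ≤
      ∫ t in (0:ℝ)..(2*π), (sin t)^8 * (1 - (sin t)^6/10)^b := by
    apply intervalIntegral.integral_mono_interval le_rfl hδ.le
    · have := Real.pi_gt_three; linarith
    · exact Eventually.of_forall hnn
    · apply Continuous.intervalIntegrable; fun_prop
  have h3 : ∫ t in (0:ℝ)..δ, (t/2)^8 * (9/10) ≤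
      ∫ t in (0:ℝ)..δ, (sin t)^8 * (1 - (sin t)^6/10)^b := by
    apply intervalIntegral.integral_mono_on hδ.le
    · apply Continuous.intervalIntegrable; fun_prop
    · apply Continuous.intervalIntegrable; fun_prop
    · intro t ht
      have ht0 := ht.1
      have hs1 : t/2 ≤ sin t := by
        have h4 := Real.mul_le_sin ht0 (by have := Real.pi_gt_three; linarith [ht.2])
        have h5 : 1/2 ≤ 2/π := by
          rw [div_le_div_iff₀ (by norm_num) hpi]; linarith
        have : 1/2 * t ≤ 2/π * t := by gcongr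
        linarith
      have hs2 : sin t ≤ t := Real.sin_le ht0
      have hs0 : 0 ≤ sin t := (by positivity : (0:ℝ) ≤ t/2).trans hs1
      have h6 : (t/2)^8 ≤ (sin t)^8 := pow_le_pow_left₀ (by positivity) hs1 8
      have h7 : (sin t)^6 ≤ δ^6 := pow_le_pow_left₀ hs0 (hs2.trans ht.2) 6
      have h8 : 9/10 ≤ (1 - (sin t)^6/10)^b := by
        obtain ⟨h6, h61, _⟩ := s_pow (abs_sin_le_one t)
        have h9 := one_add_mul_le_pow (a := -((sin t)^6/10)) (by linarith) b
        have h10 : 1 + -((sin t)^6/10) = 1 - (sin t)^6/10 := by ring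
        rw [h10] at h9
        refine le_trans ?_ h9
        have h11 : (b:ℝ) * (sin t)^6 ≤ b * δ^6 := by gcongr
        rw [hbδ] at h11
        linarith
      have : (0:ℝ) ≤ (t/2)^8 := by positivity
      gcongr
  have h4 : ∫ t in (0:ℝ)..δ, (t/2)^8 * (9/10) = δ^9/2560 := by
    have : ∀ t : ℝ, (t/2)^8 * (9/10) = 9/2560 * t^8 := by intro t; ring
    simp only [this]
    rw [intervalIntegral.integral_const_mul, integral_pow]
    norm_num
  have h5 : (2*π - 0) • (180001 * δ^10) ≤ δ^9/5120 := by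
    rw [smul_eq_mul, sub_zero]
    have h6 : 2*π*180001*δ ≤ 1/5120 := by
      calc 2*π*180001*δ ≤ 2*4*180001*(1/10^10) := by gcongr
        _ ≤ 1/5120 := by norm_num
    have : (0:ℝ) < δ^9 := by positivity
    have h7 : 2*π*(180001*δ^10) = (2*π*180001*δ) * δ^9 := by ring
    have h8 : (2*π*180001*δ) * δ^9 ≤ (1/5120) * δ^9 := by gcongr
    linarith
  rw [h4] at h3
  linarith

end Pool.Agent.Wien
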