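import Pool.Agent.Wien.Pol

set_option autoImplicit false
open Set Filter Topology Real Polynomial

namespace Pool.Agent.Wien

/-- the estimate on the unit circle -/
theorem circ_bound (z : ℂ) (hz : ‖z‖ = 1) : ‖aeval z F1‖ + 1/50 * ‖(1 - z^2)/2‖^6 ≤ 1 := by
  have hz' : z = Complex.exp (Complex.arg z * Complex.I) := by
    have := Complex.norm_mul_exp_arg_mul_I z
    rw [hz, Complex.ofReal_one, one_mul] at this
    exact this.symm
  set t := Complex.arg z
  rw [hz', F1_circ]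
  have h1 : ‖Complex.exp (t * Complex.I)‖ = 1 := Complex.norm_exp_ofReal_mul_I t
  have h2 : (1 - (Complex.exp (t * Complex.I))^2)/2 =
    -(Complex.exp (t * Complex.I) * ((sin t : ℝ) * Complex.I)) := by
    have := sq_sub t
    linear_combination (-1/2 : ℂ) * this
  rw [h2, norm_mul, norm_pow, h1, norm_neg, norm_mul, h1, norm_mul, Complex.norm_I,
    Complex.norm_real, Real.norm_eq_abs]
  have h3 := Ef_norm (sin t) (abs_sin_le_one t)
  have h4 : |sin t|^6 = (sin t)^6 := by rw [← abs_pow]; exact abs_of_nonneg (by positivity)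
  simp only [one_pow, one_mul, mul_one]
  rw [h4]
  linarith

theorem exists_unit (A B : ℂ) : ∃ η : ℂ, ‖η‖ = 1 ∧ ‖A + η * B‖ = ‖A‖ + ‖B‖ := by
  by_cases hA : A = 0
  · exact ⟨1, by simp, by simp [hA]⟩
  by_cases hB : B = 0
  · exact ⟨1, by simp, by simp [hB]⟩
  have hA' : ‖A‖ ≠ 0 := norm_ne_zero_iff.mpr hA
  have hB' : ‖B‖ ≠ 0 := norm_ne_zero_iff.mpr hB
  have hAc : (‖A‖:ℂ) ≠ 0 := by exact_mod_cast hA'
  have hBc : (‖B‖:ℂ) ≠ 0 := by exact_mod_cast hB'
  refine ⟨(A / ‖A‖) * (‖B‖ / B), ?_, ?_⟩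
  · rw [norm_mul, norm_div, norm_div, Complex.norm_real, Complex.norm_real, norm_norm, norm_norm,
      div_self hA', div_self hB', mul_one]
  · have h1 : A + (A / ‖A‖) * (‖B‖ / B) * B = (A / ‖A‖) * ((‖A‖ + ‖B‖ : ℝ) : ℂ) := by
      push_cast
      field_simp
    rw [h1, norm_mul, norm_div, Complex.norm_real, norm_norm, div_self hA', one_mul,
      Complex.norm_real, Real.norm_eq_abs, abs_of_nonneg (by positivity)]

theorem disc_bound (z : ℂ) (hz : ‖z‖ ≤ 1) : ‖aeval z F1‖ + 1/50 * ‖(1 - z^2)/2‖^6 ≤ 1 := by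
  obtain ⟨η, hη, hη2⟩ := exists_unit (aeval z F1) ((1/50) * ((1 - z^2)/2)^6)
  let h : ℂ → ℂ := fun w => aeval w F1 + η * ((1/50) * ((1 - w^2)/2)^6)
  have hd : Differentiable ℂ h := by
    have : Differentiable ℂ (fun w : ℂ => aeval w F1) := Polynomial.differentiable_aeval F1
    simp only [h]
    fun_prop
  have hb := Complex.norm_le_of_forall_mem_frontier_norm_le (U := Metric.ball (0:ℂ) 1) (f := h) (C := 1)
    Metric.isBounded_ball hd.diffContOnCl (by
      intro w hw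
      rw [frontier_ball (0:ℂ) one_ne_zero, mem_sphere_zero_iff_norm] at hw
      have h1 := circ_bound w hw
      refine (norm_add_le _ _).trans ?_
      rw [norm_mul, hη, one_mul, norm_mul, norm_pow]
      have : ‖(1/50 : ℂ)‖ = 1/50 := by simp
      rw [this]; exact h1)
    (z := z) (by
      rw [closure_ball (0:ℂ) one_ne_zero, mem_closedBall_zero_iff]; exact hz)
  simp only [h] at hb
  rw [hη2, norm_mul, norm_pow] at hb
  have : ‖(1/50 : ℂ)‖ = 1/50 := by simp
  rw [this] at hb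
  exact hb

noncomputable def PP : MvPolynomial (Fin 2) ℝ := aeval (MvPolynomial.X 0) P1
noncomputable def FF : MvPolynomial (Fin 2) ℝ := aeval (MvPolynomial.X 0) F1
noncomputable def QQ : MvPolynomial (Fin 2) ℝ := 1 - MvPolynomial.X 1 * FF

theorem aeval_PP (z : Fin 2 → ℂ) : MvPolynomial.aeval z PP = (1 - (z 0)^2)^7 := by
  unfold PP
  rw [← Polynomial.aeval_algHom_apply, MvPolynomial.aeval_X, aeval_P1]

theorem aeval_FF (z : Fin 2 → ℂ) : MvPolynomial.aeval z FF = aeval (z 0) F1 := by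
  unfold FF
  rw [← Polynomial.aeval_algHom_apply, MvPolynomial.aeval_X]

theorem aeval_QQ (z : Fin 2 → ℂ) : MvPolynomial.aeval z QQ = 1 - z 1 * aeval (z 0) F1 := by
  unfold QQ
  rw [map_sub, map_mul, map_one, aeval_FF, MvPolynomial.aeval_X]

theorem Q_low (z : Fin 2 → ℂ) (hz : ∀ i, ‖z i‖ ≤ 1) :
    1/3200 * ‖1 - (z 0)^2‖^6 ≤ ‖MvPolynomial.aeval z QQ‖ := by
  rw [aeval_QQ]
  have h1 := disc_bound (z 0) (hz 0)
  have h2 : ‖(1 - (z 0)^2)/2‖ = ‖1 - (z 0)^2‖/2 := by rw [norm_div]; simp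
  rw [h2, div_pow] at h1
  have h3 : ‖z 1 * aeval (z 0) F1‖ ≤ ‖aeval (z 0) F1‖ := by
    rw [norm_mul]
    exact mul_le_of_le_one_left (norm_nonneg _) (hz 1)
  have h4 : 1 - ‖z 1 * aeval (z 0) F1‖ ≤ ‖1 - z 1 * aeval (z 0) F1‖ := by
    have := norm_sub_norm_le (1:ℂ) (z 1 * aeval (z 0) F1)
    rwa [norm_one] at this
  have h5 : (1:ℝ)/50 * (‖1 - (z 0)^2‖^6/2^6) = 1/3200 * ‖1 - (z 0)^2‖^6 := by ring
  rw [h5] at h1
  linarith

theorem cont_ext : ∃ F : (Fin 2 → ℂ) → ℂ,
    ContinuousOn F {z : Fin 2 → ℂ | ∀ i, ‖z i‖ ≤ 1} ∧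
    ∀ z : Fin 2 → ℂ, (∀ i, ‖z i‖ < 1) → MvPolynomial.aeval z QQ ≠ 0 →
      F z = MvPolynomial.aeval z PP / MvPolynomial.aeval z QQ := by
  refine ⟨fun z => MvPolynomial.aeval z PP / MvPolynomial.aeval z QQ, ?_, fun z _ _ => rfl⟩
  have hPc : Continuous (fun z : Fin 2 → ℂ => MvPolynomial.aeval z PP) := by
    simp only [aeval_PP]; fun_prop
  have hQc : Continuous (fun z : Fin 2 → ℂ => MvPolynomial.aeval z QQ) := by
    simp only [aeval_QQ]
    have : Continuous (fun w : ℂ => aeval w F1) := Polynomial.continuous_aeval F1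
    fun_prop
  have hbound : ∀ z : Fin 2 → ℂ, (∀ i, ‖z i‖ ≤ 1) →
      ‖MvPolynomial.aeval z PP / MvPolynomial.aeval z QQ‖ ≤ 3200 * ‖1 - (z 0)^2‖ := by
    intro z hz
    have h1 := Q_low z hz
    by_cases hQ : MvPolynomial.aeval z QQ = 0
    · rw [hQ, div_zero, norm_zero]; positivity
    · have hQ' : 0 < ‖MvPolynomial.aeval z QQ‖ := norm_pos_iff.mpr hQ
      rw [norm_div, div_le_iff₀ hQ', aeval_PP, norm_pow]
      set r := ‖1 - (z 0)^2‖
      have hr : 0 ≤ r := norm_nonneg _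
      calc r^7 = 3200 * r * (1/3200 * r^6) := by ring
        _ ≤ 3200 * r * ‖MvPolynomial.aeval z QQ‖ := by gcongr
  intro z hz
  by_cases hQ : MvPolynomial.aeval z QQ = 0
  · have h0 : 1 - (z 0)^2 = 0 := by
      have h1 := Q_low z hz
      rw [hQ, norm_zero] at h1
      have h2 : ‖1 - (z 0)^2‖^6 ≤ 0 := by linarith
      have h3 : ‖1 - (z 0)^2‖^6 = 0 := le_antisymm h2 (by positivity)
      exact norm_eq_zero.mp (pow_eq_zero_iff (by norm_num) |>.mp h3)
    change Tendsto _ _ _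
    simp only [hQ, div_zero]
    apply squeeze_zero_norm' (a := fun z : Fin 2 → ℂ => 3200 * ‖1 - (z 0)^2‖)
    · filter_upwards [self_mem_nhdsWithin] with y hy
      exact hbound y hy
    · have hc : Continuous (fun z : Fin 2 → ℂ => 3200 * ‖1 - (z 0)^2‖) := by fun_prop
      have := (hc.tendsto z).mono_left (nhdsWithin_le_nhds (s := {z : Fin 2 → ℂ | ∀ i, ‖z i‖ ≤ 1}))
      rw [h0, norm_zero, mul_zero] at this
      exact this
  · exact (hPc.continuousAt.div hQc.continuousAt hQ).continuousWithinAt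

theorem finite_zeros : {z : Fin 2 → ℂ | (∀ i, ‖z i‖ = 1) ∧ MvPolynomial.aeval z PP = 0 ∧
          MvPolynomial.aeval z QQ = 0}.Finite := by
  have hsub : {z : Fin 2 → ℂ | (∀ i, ‖z i‖ = 1) ∧ MvPolynomial.aeval z PP = 0 ∧
          MvPolynomial.aeval z QQ = 0} ⊆ {![1, 1], ![-1, -1]} := by
    rintro z ⟨_, h1, h2⟩
    rw [aeval_PP] at h1
    rw [aeval_QQ] at h2
    have h3 : 1 - (z 0)^2 = 0 := by
      exact (pow_eq_zero_iff (by norm_num)).mp h1
    have h4 : (z 0 - 1) * (z 0 + 1) = 0 := by linear_combination -h3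
    have hsumm : ∀ w : ℂ, w^2 = 1 → aeval w F1 = w^7 := by
      intro w hw
      rw [aeval_F1, hw]
      simp [Finset.sum_range_succ]
    have hF := hsumm (z 0) (by linear_combination -h3)
    rw [hF] at h2
    rcases mul_eq_zero.mp h4 with h5 | h5
    · left
      have h6 : z 0 = 1 := by linear_combination h5
      have h7 : z 1 = 1 := by rw [h6] at h2; linear_combination -h2
      funext i
      fin_cases i <;> simp [h6, h7]
    · right
      have h6 : z 0 = -1 := by linear_combination h5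
      have h7 : z 1 = -1 := by rw [h6] at h2; linear_combination h2
      rw [mem_singleton_iff]
      funext i
      fin_cases i <;> simp [h6, h7]
  exact (Set.toFinite _).subset hsub

end Pool.Agent.Wien
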