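import Pool.Agent.Wien.Low

set_option autoImplicit false
open Set Filter Topology MeasureTheory Real Polynomial

namespace Pool.Agent.Wien

noncomputable def Yp : ℝ[X] := C (1/2) * (X^2 - 1)

noncomputable def F1 : ℝ[X] :=
  ∑ k ∈ Finset.range 8, C ((k.factorial:ℝ)⁻¹) * Yp^k * X^(7-k) + C (1/10) * (Yp^6 * X + Yp^7)

noncomputable def P1 : ℝ[X] := (1 - X^2)^7

theorem aeval_Yp (z : ℂ) : aeval z Yp = (z^2 - 1)/2 := by
  unfold Yp
  simp
  ring

theorem aeval_P1 (z : ℂ) : aeval z P1 = (1 - z^2)^7 := by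
  unfold P1
  simp

theorem aeval_F1 (z : ℂ) : aeval z F1 = ∑ k ∈ Finset.range 8, (k.factorial:ℂ)⁻¹ * ((z^2-1)/2)^k * z^(7-k)
    + (1/10) * (((z^2-1)/2)^6 * z + ((z^2-1)/2)^7) := by
  unfold F1
  rw [map_add, map_sum]
  simp only [map_mul, map_pow, map_add, aeval_X, aeval_Yp, aeval_C]
  simp

theorem sq_sub (t : ℝ) : (Complex.exp (t * Complex.I))^2 - 1 =
    2 * Complex.exp (t * Complex.I) * ((sin t : ℝ) * Complex.I) := by
  have h1 : Complex.exp (t * Complex.I) * Complex.exp (-(t * Complex.I)) = 1 := by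
    rw [← Complex.exp_add, add_neg_cancel, Complex.exp_zero]
  have h2 : ((sin t : ℝ) : ℂ) * Complex.I * 2 = Complex.exp (t * Complex.I) - Complex.exp (-(t * Complex.I)) := by
    rw [Complex.ofReal_sin, Complex.sin, neg_mul]
    have : Complex.I * Complex.I = -1 := Complex.I_mul_I
    linear_combination ((Complex.exp (-(↑t * Complex.I)) - Complex.exp (↑t * Complex.I))) * this
  calc (Complex.exp (t * Complex.I))^2 - 1 = (Complex.exp (t * Complex.I))^2 -
      Complex.exp (t * Complex.I) * Complex.exp (-(t * Complex.I)) := by rw [h1]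
    _ = Complex.exp (t * Complex.I) * (Complex.exp (t * Complex.I) - Complex.exp (-(t * Complex.I))) := by ring
    _ = _ := by rw [← h2]; ring

theorem F1_circ (t : ℝ) : aeval (Complex.exp (t * Complex.I)) F1 =
    (Complex.exp (t * Complex.I))^7 * Ef (((sin t : ℝ):ℂ) * Complex.I) := by
  rw [aeval_F1, sq_sub]
  set z := Complex.exp (t * Complex.I)
  set u := ((sin t : ℝ):ℂ) * Complex.I
  have h1 : 2 * z * u / 2 = z * u := by ring
  rw [h1]
  unfold Ef
  rw [mul_add (z^7), Finset.mul_sum]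
  congr 1
  · refine Finset.sum_congr rfl fun k hk => ?_
    have hk7 : k ≤ 7 := Nat.lt_succ_iff.mp (Finset.mem_range.mp hk)
    have : z^7 = z^k * z^(7-k) := by rw [← pow_add]; congr 1; omega
    rw [this, mul_pow]; ring
  · ring

theorem P1_circ (t : ℝ) : aeval (Complex.exp (t * Complex.I)) P1 =
    128 * Complex.I * ((sin t : ℝ):ℂ)^7 * (Complex.exp (t * Complex.I))^7 := by
  rw [aeval_P1]
  have h1 : 1 - (Complex.exp (t * Complex.I))^2 =
    -(2 * Complex.exp (t * Complex.I) * ((sin t : ℝ) * Complex.I)) := by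
    rw [← sq_sub]; ring
  rw [h1]
  have h2 : Complex.I^7 = -Complex.I := by
    calc Complex.I^7 = (Complex.I^2)^3 * Complex.I := by ring
      _ = -Complex.I := by rw [Complex.I_sq]; ring
  calc (-(2 * Complex.exp (t * Complex.I) * ((sin t : ℝ) * Complex.I)))^7
      = -128 * (Complex.exp (t * Complex.I))^7 * ((sin t : ℝ):ℂ)^7 * Complex.I^7 := by ring
    _ = _ := by rw [h2]; ring

noncomputable def gg (b : ℕ) : ℝ[X] := P1 * F1^b

theorem gg_im (b : ℕ) (t : ℝ) :
    ∑ a ∈ (gg b).support, (gg b).coeff a * (sin (ph b ((a:ℤ) - (7 + 7*b)) t) * sin t) =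
      128 * ((sin t)^8 * (Rf (sin t) ^ b).re) := by
  set z := Complex.exp (t * Complex.I) with hz
  set w := Complex.exp (-(((7 + 7*b : ℝ) * t + b * sin t : ℝ) : ℂ) * Complex.I) with hw
  have h1 : aeval z (gg b) * w = 128 * Complex.I * ((sin t : ℝ):ℂ)^7 * (Rf (sin t))^b := by
    unfold gg
    rw [map_mul, map_pow, hz, P1_circ, F1_circ, ← hz]
    unfold Rf
    rw [mul_pow, mul_pow]
    have h2 : z^7 * (z^7)^b * w = (Complex.exp (-(((sin t : ℝ):ℂ) * Complex.I)))^b := by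
      rw [hz, hw, ← pow_mul, ← pow_add, ← Complex.exp_nat_mul, ← Complex.exp_nat_mul, ← Complex.exp_add]
      congr 1
      push_cast
      ring
    calc 128 * Complex.I * ((sin t : ℝ):ℂ)^7 * z^7 * ((z^7)^b * Ef (((sin t : ℝ):ℂ) * Complex.I)^b) * w
        = 128 * Complex.I * ((sin t : ℝ):ℂ)^7 * Ef (((sin t : ℝ):ℂ) * Complex.I)^b * (z^7 * (z^7)^b * w) := by ring
      _ = _ := by rw [h2]; ring
  have h3 : (aeval z (gg b) * w).im = ∑ a ∈ (gg b).support, (gg b).coeff a * sin (ph b ((a:ℤ) - (7 + 7*b)) t) := by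
    rw [aeval_eq_sum_range, ← Polynomial.sum_over_range' (gg b) (f := fun a c => c • z^a) (fun n => by simp)
      _ (Nat.lt_succ_self _), Polynomial.sum_def, Finset.sum_mul, Complex.im_sum]
    refine Finset.sum_congr rfl fun a _ => ?_
    have h4 : (gg b).coeff a • z^a * w = (((gg b).coeff a : ℝ) : ℂ) *
        Complex.exp (((ph b ((a:ℤ) - (7 + 7*b)) t : ℝ) : ℂ) * Complex.I) := by
      rw [hz, hw, ← Complex.exp_nat_mul, Complex.real_smul, mul_assoc, ← Complex.exp_add]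
      congr 2
      unfold ph
      push_cast
      ring
    rw [h4, Complex.im_ofReal_mul, Complex.exp_ofReal_mul_I_im]
  have h5 : (128 * Complex.I * ((sin t : ℝ):ℂ)^7 * (Rf (sin t))^b).im = 128 * (sin t)^7 * (Rf (sin t)^b).re := by
    have h6 : 128 * Complex.I * ((sin t : ℝ):ℂ)^7 * (Rf (sin t))^b =
        ((128 * (sin t)^7 : ℝ) : ℂ) * (Complex.I * (Rf (sin t))^b) := by push_cast; ring
    rw [h6, Complex.im_ofReal_mul, Complex.I_mul_im]
  rw [h1, h5] at h3
  have h7 : ∑ a ∈ (gg b).support, (gg b).coeff a * (sin (ph b ((a:ℤ) - (7 + 7*b)) t) * sin t) =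
      (∑ a ∈ (gg b).support, (gg b).coeff a * sin (ph b ((a:ℤ) - (7 + 7*b)) t)) * sin t := by
    rw [Finset.sum_mul]
    exact Finset.sum_congr rfl fun a _ => by ring
  rw [h7, ← h3]
  ring

theorem L1_low (b : ℕ) (hb : 10^60 ≤ b) :
    1/(800 * (b:ℝ)) ≤ ∑ a ∈ (gg b).support, |(gg b).coeff a| := by
  have hb1 : 1 ≤ b := le_trans (by norm_num) hb
  have hbr : (0:ℝ) < b := by exact_mod_cast hb1
  set δ : ℝ := (b:ℝ)^(-(1/6:ℝ)) with hδ
  have hδ0 : 0 < δ := Real.rpow_pos_of_pos hbr _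
  have hδ6 : δ^6 = (b:ℝ)⁻¹ := by
    rw [hδ, ← Real.rpow_natCast, ← Real.rpow_mul hbr.le]
    norm_num
    rw [Real.rpow_neg_one]
  have hbδ : b * δ^6 = 1 := by rw [hδ6]; exact mul_inv_cancel₀ hbr.ne'
  have hδs : δ ≤ 1/10^10 := by
    by_contra h
    push Not at h
    have h1 : (1/10^10 : ℝ)^6 < δ^6 := pow_lt_pow_left₀ h (by positivity) (by norm_num)
    rw [hδ6] at h1
    have h2 : (10:ℝ)^60 ≤ b := by exact_mod_cast hb
    have h3 : (b:ℝ)⁻¹ ≤ ((10:ℝ)^60)⁻¹ := inv_anti₀ (by positivity) h2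
    have h4 : (1/10^10 : ℝ)^6 = ((10:ℝ)^60)⁻¹ := by norm_num
    linarith
  have hlow := int_low b hb1 δ hδ0 hbδ hδs
  have hint : ∑ a ∈ (gg b).support, (gg b).coeff a *
      ∫ t in (0:ℝ)..(2*π), sin (ph b ((a:ℤ) - (7 + 7*b)) t) * sin t =
      128 * ∫ t in (0:ℝ)..(2*π), (sin t)^8 * (Rf (sin t) ^ b).re := by
    rw [← intervalIntegral.integral_const_mul]
    simp only [← gg_im]
    rw [intervalIntegral.integral_finsetSum]
    · refine Finset.sum_congr rfl fun a _ => ?_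
      rw [intervalIntegral.integral_const_mul]
    · intro a _
      apply Continuous.intervalIntegrable
      have := ph_cont b ((a:ℤ) - (7 + 7*b))
      fun_prop
  have hup : |∑ a ∈ (gg b).support, (gg b).coeff a *
      ∫ t in (0:ℝ)..(2*π), sin (ph b ((a:ℤ) - (7 + 7*b)) t) * sin t| ≤
      (∑ a ∈ (gg b).support, |(gg b).coeff a|) * (π * √(20 / b)) := by
    rw [Finset.sum_mul]
    refine (Finset.abs_sum_le_sum_abs _ _).trans (Finset.sum_le_sum fun a _ => ?_)
    rw [abs_mul]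
    have := tau_bound b hb1 ((a:ℤ) - (7 + 7*b))
    gcongr
  set L := ∑ a ∈ (gg b).support, |(gg b).coeff a| with hL
  have hL0 : 0 ≤ L := Finset.sum_nonneg fun _ _ => abs_nonneg _
  have hsq : √(20 / (b:ℝ)) ≤ 5 * δ^3 := by
    rw [show (20:ℝ)/b = 20 * δ^6 by rw [hδ6]; rfl]
    apply Real.sqrt_le_iff.mpr
    constructor
    · positivity
    · have : (0:ℝ) < δ^6 := by positivity
      nlinarith
  have hpi := Real.pi_lt_four
  have hpi0 := Real.pi_pos
  have h1 : 128 * (δ^9/5120) ≤ L * (4 * (5 * δ^3)) := by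
    calc 128 * (δ^9/5120) ≤ 128 * ∫ t in (0:ℝ)..(2*π), (sin t)^8 * (Rf (sin t) ^ b).re := by gcongr
      _ ≤ L * (π * √(20 / b)) := by rw [← hint]; exact (le_abs_self _).trans hup
      _ ≤ L * (4 * (5 * δ^3)) := by gcongr
  have h2 : δ^6 / 800 ≤ L := by
    have h3 : 0 < δ^3 := by positivity
    have h4 : (δ^6/800) * δ^3 ≤ L * δ^3 := by
      have e1 : 128 * (δ^9/5120) = 20 * ((δ^6/800) * δ^3) := by ring
      have e2 : L * (4 * (5 * δ^3)) = 20 * (L * δ^3) := by ring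
      rw [e1, e2] at h1
      linarith
    exact le_of_mul_le_mul_right h4 h3
  have h5 : 1/(800 * (b:ℝ)) = δ^6/800 := by rw [hδ6]; field_simp
  rw [h5]; exact h2

end Pool.Agent.Wien
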